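import Pool.Agent.W120.WM.Defs2
import Pool.Agent.H370R2.Count
import Pool.Agent.H370R2.DirGood

/-! Project WM (helper120), MP_323ce2_nt: consecutive zeros. -/

set_option autoImplicit false

open MeasureTheory Filter Topology Set

namespace Pool.Agent.W752.WM

open Pool.Agent.W120.WM

lemma cont : Continuous (fun y : ℝ => riemannZeta (⟨1 / 2, y⟩ : ℂ)) := by
  rw [continuous_iff_continuousAt]
  intro y
  have h1 : (⟨1 / 2, y⟩ : ℂ) ≠ 1 := by
    intro h
    have := congrArg Complex.re h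
    norm_num at this
  have h2 : ContinuousAt riemannZeta (⟨1 / 2, y⟩ : ℂ) :=
    (differentiableAt_riemannZeta h1).continuousAt
  have h3 : ContinuousAt (fun y : ℝ => (⟨1 / 2, y⟩ : ℂ)) y := by
    have : (fun y : ℝ => (⟨1 / 2, y⟩ : ℂ)) = fun y : ℝ => (1 / 2 : ℂ) + y * Complex.I := by
      funext y
      apply Complex.ext <;> simp
    rw [this]
    fun_prop
  exact ContinuousAt.comp (f := fun y : ℝ => (⟨1 / 2, y⟩ : ℂ)) h2 h3

lemma neg_zero' {y : ℝ} (h : riemannZeta (⟨1 / 2, y⟩ : ℂ) = 0) :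
    riemannZeta (⟨1 / 2, -y⟩ : ℂ) = 0 := by
  have h1 : (⟨1 / 2, y⟩ : ℂ) ≠ 1 := by
    intro h
    have := congrArg Complex.re h
    norm_num at this
  have h2 : ∀ n : ℕ, (⟨1 / 2, y⟩ : ℂ) ≠ -n := by
    intro n hn
    have h3 := congrArg Complex.re hn
    simp at h3
    have h4 : (0 : ℝ) ≤ n := Nat.cast_nonneg n
    linarith
  have h3 := riemannZeta_one_sub h2 h1
  rw [h, mul_zero] at h3
  have h4 : (1 : ℂ) - (⟨1 / 2, y⟩ : ℂ) = ⟨1 / 2, -y⟩ := by
    apply Complex.ext
    · norm_num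
    · simp
  rwa [h4] at h3

lemma big (hRH : RHp) : ∃ T1 : ℝ, 10 ≤ T1 ∧ ∀ T : ℝ, T1 ≤ T → ∃ y : ℝ,
    riemannZeta (⟨1 / 2, y⟩ : ℂ) = 0 ∧ T < y ∧ y ≤ 2 * T := by
  obtain ⟨C, T0, hC, hT0, h⟩ := H370.nn_asymp H370.good_zeta
  refine ⟨max T0 (Real.exp (2 * Real.pi * (C + 1))), le_trans hT0 (le_max_left _ _),
    fun T hT => ?_⟩
  have hTT0 : T0 ≤ T := (le_max_left _ _).trans hT
  have hTe : Real.exp (2 * Real.pi * (C + 1)) ≤ T := (le_max_right _ _).trans hT
  have hTpos : 0 < T := by linarith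
  have h1 := h T hTT0 T (2 * T) le_rfl (by linarith) (by linarith) le_rfl
  have h2 : 2 * Real.pi * (C + 1) ≤ Real.log T := (Real.le_log_iff_exp_le hTpos).mpr hTe
  have h3 : T * (C + 1) ≤ T * Real.log T / (2 * Real.pi) := by
    rw [le_div_iff₀ (by positivity)]
    nlinarith [Real.pi_pos]
  have h4 : (0 : ℝ) < (H370.NN riemannZeta T (2 * T) : ℝ) := by
    have h5 := (abs_le.mp h1).1
    nlinarith
  have h5 : (H370.zset riemannZeta T (2 * T)).Nonempty := by
    by_contra hcon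
    rw [Set.not_nonempty_iff_eq_empty] at hcon
    have h6 : H370.NN riemannZeta T (2 * T) = 0 := by
      unfold H370.NN
      rw [hcon]
      simp
    rw [h6] at h4
    simp at h4
  obtain ⟨s, hs0, hs1, hs2, hs3, hs4⟩ := h5
  have h6 : s.re = 1 / 2 := hRH s ⟨hs4, hs0, hs1⟩
  refine ⟨s.im, ?_, hs2, hs3⟩
  have h7 : (⟨1 / 2, s.im⟩ : ℂ) = s := by
    apply Complex.ext
    · exact h6.symm
    · rfl
  rw [h7]
  exact hs4

lemma cons_neg {a b : ℝ} (h : Cons a b) : Cons (-b) (-a) := by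
  obtain ⟨h1, h2, h3, h4⟩ := h
  refine ⟨by linarith, neg_zero' h3, neg_zero' h2, fun y hy hz => ?_⟩
  have := neg_zero' hz
  exact h4 (-y) ⟨by linarith [hy.2], by linarith [hy.1]⟩ this

theorem u_DBL : U_DBL := by
  intro hRH
  obtain ⟨T1, hT1, hbig⟩ := big hRH
  have hclosed : IsClosed {y : ℝ | riemannZeta (⟨1 / 2, y⟩ : ℂ) = 0} :=
    isClosed_singleton.preimage cont
  constructor
  · intro t ht
    obtain ⟨y, hy0, hy1, _⟩ := hbig (max T1 |t|) (le_max_left _ _)
    have hyt : t < y := (le_abs_self t).trans_lt ((le_max_right _ _).trans_lt hy1)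
    have hyt' : -y < t := by
      have h1 : -t < y := (neg_le_abs t).trans_lt ((le_max_right _ _).trans_lt hy1)
      linarith
    set A : Set ℝ := {y : ℝ | riemannZeta (⟨1 / 2, y⟩ : ℂ) = 0} ∩ Iic t with hA
    set B : Set ℝ := {y : ℝ | riemannZeta (⟨1 / 2, y⟩ : ℂ) = 0} ∩ Ici t with hB
    have hAne : A.Nonempty := ⟨-y, neg_zero' hy0, hyt'.le⟩
    have hBne : B.Nonempty := ⟨y, hy0, hyt.le⟩
    have hAb : BddAbove A := ⟨t, fun z hz => hz.2⟩
    have hBb : BddBelow B := ⟨t, fun z hz => hz.2⟩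
    have hAm : sSup A ∈ A := (hclosed.inter isClosed_Iic).csSup_mem hAne hAb
    have hBm : sInf B ∈ B := (hclosed.inter isClosed_Ici).csInf_mem hBne hBb
    have ha : sSup A < t := by
      rcases lt_or_eq_of_le (Set.mem_Iic.mp hAm.2) with h | h
      · exact h
      · exfalso
        apply ht
        have h1 : riemannZeta (⟨1 / 2, sSup A⟩ : ℂ) = 0 := hAm.1
        rwa [h] at h1
    have hb : t < sInf B := by
      rcases lt_or_eq_of_le (Set.mem_Ici.mp hBm.2) with h | h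
      · exact h
      · exfalso
        apply ht
        have h1 : riemannZeta (⟨1 / 2, sInf B⟩ : ℂ) = 0 := hBm.1
        rwa [← h] at h1
    refine ⟨sSup A, sInf B, ⟨ha.trans hb, hAm.1, hBm.1, fun z hz hz0 => ?_⟩, ha, hb⟩
    rcases le_total z t with h | h
    · exact absurd (le_csSup hAb ⟨hz0, h⟩) (not_le.mpr hz.1)
    · exact absurd (csInf_le hBb ⟨hz0, h⟩) (not_le.mpr hz.2)
  · have hpos : ∀ a b : ℝ, Cons a b → 0 ≤ a → b ≤ 2 * a + 2 * T1 := by
      intro a b hab ha
      obtain ⟨y, hy0, hy1, hy2⟩ := hbig (max T1 a) (le_max_left _ _)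
      have hay : a < y := (le_max_right _ _).trans_lt hy1
      have hby : b ≤ y := by
        by_contra hcon
        exact hab.2.2.2 y ⟨hay, not_le.mp hcon⟩ hy0
      have hmax : max T1 a ≤ T1 + a := max_le (by linarith) (by linarith)
      linarith
    refine ⟨2 * T1, by linarith, fun a b hab => ⟨hpos a b hab, fun hb => ?_, fun ha hb => ?_⟩⟩
    · have := hpos (-b) (-a) (cons_neg hab) (by linarith)
      linarith
    · have hright : ∀ a b : ℝ, Cons a b → a ≤ 0 → b ≤ 2 * T1 := by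
        intro a b hab ha
        obtain ⟨y, hy0, hy1, hy2⟩ := hbig T1 le_rfl
        have hby : b ≤ y := by
          by_contra hcon
          exact hab.2.2.2 y ⟨by linarith, not_le.mp hcon⟩ hy0
        linarith
      refine ⟨?_, ?_⟩
      · rw [abs_of_nonpos ha]
        exact hright (-b) (-a) (cons_neg hab) (by linarith)
      · rw [abs_of_nonneg hb]
        exact hright a b hab ha

end Pool.Agent.W752.WM
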